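import Mathlib

/-!
For `|x| ≤ 1` and `0 ≤ p, q ≤ 1` the function `(1 + x s)^p (1 - s)^(-q)` maps the unit disc into an
open half plane with zero on its boundary.
-/

set_option autoImplicit false

open Complex Metric Set

namespace Pool.Agent.H73.Had

lemma inv_one_sub_re {s : ℂ} (hs : ‖s‖ < 1) : 1 / 2 < ((1 - s)⁻¹).re := by
  have h1 : normSq s < 1 := by
    rw [Complex.normSq_eq_norm_sq]
    nlinarith [norm_nonneg s]
  have hne : 1 - s ≠ 0 := by
    intro h
    have : s = 1 := by linear_combination -h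
    rw [this] at hs
    simp at hs
  have h2 : 0 < normSq (1 - s) := Complex.normSq_pos.mpr hne
  rw [Complex.inv_re, lt_div_iff₀ h2]
  rw [Complex.normSq_apply] at h1 ⊢
  simp only [Complex.sub_re, Complex.sub_im, Complex.one_re, Complex.one_im]
  nlinarith

lemma inv_one_add_re {x : ℂ} (hx : ‖x‖ ≤ 1) (hx1 : x ≠ -1) : 1 / 2 ≤ ((1 + x)⁻¹).re := by
  have h1 : normSq x ≤ 1 := by
    rw [Complex.normSq_eq_norm_sq]
    nlinarith [norm_nonneg x]
  have hne : 1 + x ≠ 0 := by
    intro h
    apply hx1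
    linear_combination h
  have h2 : 0 < normSq (1 + x) := Complex.normSq_pos.mpr hne
  rw [Complex.inv_re, le_div_iff₀ h2]
  rw [Complex.normSq_apply] at h1 ⊢
  simp only [Complex.add_re, Complex.add_im, Complex.one_re, Complex.one_im]
  nlinarith

lemma re_pos_one_add {x s : ℂ} (hx : ‖x‖ ≤ 1) (hs : ‖s‖ < 1) : 0 < (1 + x * s).re := by
  have h1 : ‖x * s‖ < 1 := by
    rw [norm_mul]
    calc ‖x‖ * ‖s‖ ≤ 1 * ‖s‖ := by gcongr
      _ < 1 := by linarith
  have h2 := Complex.abs_re_le_norm (x * s)
  have h3 := abs_lt.mp (h2.trans_lt h1)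
  simp only [Complex.add_re, Complex.one_re]
  linarith

lemma re_pos_one_sub {s : ℂ} (hs : ‖s‖ < 1) : 0 < (1 - s).re := by
  have := re_pos_one_add (x := -1) (s := s) (by simp) hs
  have e : (1 : ℂ) + -1 * s = 1 - s := by ring
  rwa [e] at this

lemma abs_arg_lt {z : ℂ} (hz : 0 < z.re) : |z.arg| < Real.pi / 2 :=
  Complex.abs_arg_lt_pi_div_two_iff.mpr (Or.inl hz)

lemma ne_zero_of_re {z : ℂ} (hz : 0 < z.re) : z ≠ 0 := by
  rintro rfl
  simp at hz

/-- the difference of arguments stays in an interval of length `π` -/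
lemma arg_diff {x s : ℂ} (hx : ‖x‖ ≤ 1) (hx1 : x ≠ -1) (hs : ‖s‖ < 1) :
    |(1 + x * s).arg - (1 - s).arg - (1 + x).arg| < Real.pi / 2 := by
  have hr1 := re_pos_one_add hx hs
  have hr2 := re_pos_one_sub hs
  have hne : 1 + x ≠ 0 := by
    intro h
    apply hx1
    linear_combination h
  have hr3 : 0 < (1 + x).re := by
    have h1 := inv_one_add_re hx hx1
    have h2 : 0 < normSq (1 + x) := Complex.normSq_pos.mpr hne
    rw [Complex.inv_re, le_div_iff₀ h2] at h1
    nlinarith
  have hn1 := ne_zero_of_re hr1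
  have hn2 := ne_zero_of_re hr2
  set A : ℝ := (1 + x * s).arg - (1 - s).arg - (1 + x).arg with hA
  have hexp : Complex.exp (Complex.log (1 + x * s) - Complex.log (1 - s) - Complex.log (1 + x))
      = (1 + x * s) / (1 - s) / (1 + x) := by
    rw [Complex.exp_sub, Complex.exp_sub, Complex.exp_log hn1, Complex.exp_log hn2,
      Complex.exp_log hne]
  have hω : (1 + x * s) / (1 - s) / (1 + x) = (1 - s)⁻¹ - 1 + (1 + x)⁻¹ := by
    field_simp
    ring
  have hre : 0 < ((1 + x * s) / (1 - s) / (1 + x)).re := by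
    rw [hω]
    have h1 := inv_one_sub_re hs
    have h2 := inv_one_add_re hx hx1
    simp only [Complex.add_re, Complex.sub_re, Complex.one_re]
    linarith
  rw [← hexp, Complex.exp_re] at hre
  have him : (Complex.log (1 + x * s) - Complex.log (1 - s) - Complex.log (1 + x)).im = A := by
    simp only [Complex.sub_im, Complex.log_im]
    rfl
  rw [him] at hre
  have hcos : 0 < Real.cos A := by
    by_contra hcon
    push Not at hcon
    have := mul_nonpos_of_nonneg_of_nonpos (Real.exp_pos
      (Complex.log (1 + x * s) - Complex.log (1 - s) - Complex.log (1 + x)).re).le hcon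
    linarith
  have hb1 := abs_lt.mp (abs_arg_lt hr1)
  have hb2 := abs_lt.mp (abs_arg_lt hr2)
  have hb3 := abs_lt.mp (abs_arg_lt hr3)
  have hAb : |A| < Real.pi + Real.pi / 2 := by
    rw [abs_lt]
    constructor <;> rw [hA] <;> linarith
  by_contra hcon
  push Not at hcon
  have h3 := Real.cos_nonpos_of_pi_div_two_le_of_le hcon hAb.le
  rw [Real.cos_abs] at h3
  linarith

/-- The half plane lemma. -/
theorem half_plane {x : ℂ} (hx : ‖x‖ ≤ 1) {p q : ℝ} (hp0 : 0 ≤ p) (hp1 : p ≤ 1) (hq0 : 0 ≤ q)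
    (hq1 : q ≤ 1) :
    ∃ c : ℂ, ∀ s : ℂ, ‖s‖ < 1 → 0 < (c * ((1 + x * s) ^ (p : ℂ) * (1 - s) ^ (-(q : ℂ)))).re := by
  -- it is enough to control the argument
  have key : ∀ κ : ℝ, (∀ s : ℂ, ‖s‖ < 1 →
      |p * (1 + x * s).arg - q * (1 - s).arg - κ| < Real.pi / 2) →
      ∀ s : ℂ, ‖s‖ < 1 →
        0 < (Complex.exp (-(κ * I)) * ((1 + x * s) ^ (p : ℂ) * (1 - s) ^ (-(q : ℂ)))).re := by
    intro κ hκ s hs
    have hn1 := ne_zero_of_re (re_pos_one_add hx hs)
    have hn2 := ne_zero_of_re (re_pos_one_sub hs)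
    have e1 : Complex.exp (-(κ * I)) * ((1 + x * s) ^ (p : ℂ) * (1 - s) ^ (-(q : ℂ)))
        = Complex.exp (-(κ * I) + (Complex.log (1 + x * s) * p + Complex.log (1 - s) * (-(q : ℂ)))) := by
      rw [Complex.exp_add, Complex.exp_add, Complex.cpow_def_of_ne_zero hn1,
        Complex.cpow_def_of_ne_zero hn2]
    rw [e1, Complex.exp_re]
    have him : (-(κ * I) + (Complex.log (1 + x * s) * p
        + Complex.log (1 - s) * (-(q : ℂ)))).im
        = p * (1 + x * s).arg - q * (1 - s).arg - κ := by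
      simp only [Complex.add_im, Complex.neg_im, Complex.mul_im, Complex.ofReal_re,
        Complex.ofReal_im, Complex.I_re, Complex.I_im, Complex.log_im, Complex.neg_re]
      ring
    rw [him]
    have h1 := abs_lt.mp (hκ s hs)
    exact mul_pos (Real.exp_pos _) (Real.cos_pos_of_mem_Ioo ⟨h1.1, h1.2⟩)
  by_cases hx1 : x = -1
  · refine ⟨_, key 0 ?_⟩
    intro s hs
    have e : 1 + x * s = 1 - s := by rw [hx1]; ring
    rw [e]
    have h1 := abs_arg_lt (re_pos_one_sub hs)
    have h2 : p * (1 - s).arg - q * (1 - s).arg - 0 = (p - q) * (1 - s).arg := by ring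
    rw [h2, abs_mul]
    have h3 : |p - q| ≤ 1 := by rw [abs_le]; constructor <;> linarith
    calc |p - q| * |(1 - s).arg| ≤ 1 * |(1 - s).arg| := by gcongr
      _ < Real.pi / 2 := by rw [one_mul]; exact h1
  · rcases le_total q p with hqp | hpq
    · refine ⟨_, key (q * (1 + x).arg) ?_⟩
      intro s hs
      have hA := arg_diff hx hx1 hs
      have ha := abs_arg_lt (re_pos_one_add hx hs)
      set A : ℝ := (1 + x * s).arg - (1 - s).arg - (1 + x).arg with hAdef
      set M : ℝ := max |A| |(1 + x * s).arg| with hM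
      have hM1 : M < Real.pi / 2 := max_lt hA ha
      have hM0 : 0 ≤ M := (abs_nonneg A).trans (le_max_left _ _)
      have e : p * (1 + x * s).arg - q * (1 - s).arg - q * (1 + x).arg
          = q * A + (p - q) * (1 + x * s).arg := by rw [hAdef]; ring
      rw [e]
      calc |q * A + (p - q) * (1 + x * s).arg|
          ≤ |q * A| + |(p - q) * (1 + x * s).arg| := abs_add_le _ _
        _ = q * |A| + (p - q) * |(1 + x * s).arg| := by
            rw [abs_mul, abs_mul, abs_of_nonneg hq0, abs_of_nonneg (sub_nonneg.mpr hqp)]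
        _ ≤ q * M + (p - q) * M := add_le_add
            (mul_le_mul_of_nonneg_left (le_max_left _ _) hq0)
            (mul_le_mul_of_nonneg_left (le_max_right _ _) (sub_nonneg.mpr hqp))
        _ = p * M := by ring
        _ ≤ 1 * M := by gcongr
        _ < Real.pi / 2 := by rw [one_mul]; exact hM1
    · refine ⟨_, key (p * (1 + x).arg) ?_⟩
      intro s hs
      have hA := arg_diff hx hx1 hs
      have ha := abs_arg_lt (re_pos_one_sub hs)
      set A : ℝ := (1 + x * s).arg - (1 - s).arg - (1 + x).arg with hAdef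
      set M : ℝ := max |A| |(1 - s).arg| with hM
      have hM1 : M < Real.pi / 2 := max_lt hA ha
      have hM0 : 0 ≤ M := (abs_nonneg A).trans (le_max_left _ _)
      have e : p * (1 + x * s).arg - q * (1 - s).arg - p * (1 + x).arg
          = p * A + (p - q) * (1 - s).arg := by rw [hAdef]; ring
      rw [e]
      calc |p * A + (p - q) * (1 - s).arg|
          ≤ |p * A| + |(p - q) * (1 - s).arg| := abs_add_le _ _
        _ = p * |A| + (q - p) * |(1 - s).arg| := by
            rw [abs_mul, abs_mul, abs_of_nonneg hp0, abs_of_nonpos (sub_nonpos.mpr hpq)]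
            ring
        _ ≤ p * M + (q - p) * M := add_le_add
            (mul_le_mul_of_nonneg_left (le_max_left _ _) hp0)
            (mul_le_mul_of_nonneg_left (le_max_right _ _) (sub_nonneg.mpr hpq))
        _ = q * M := by ring
        _ ≤ 1 * M := by gcongr
        _ < Real.pi / 2 := by rw [one_mul]; exact hM1

end Pool.Agent.H73.Had
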