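import Mathlib

/-!
A Herglotz type representation: if `Re (∫ k (1 - u τ)⁻¹ / ∫ k) > 1/2` for all `|u| ≤ 1` then
`∫ k G(τ) / ∫ k` is an average of the values of `G` on the unit circle.
-/

set_option autoImplicit false

open Complex Metric Set MeasureTheory
open scoped ComplexConjugate

namespace Pool.Agent.H73.Had

/-- Fubini for continuous functions on a square. -/
lemma swap_int {f : ℝ → ℝ → ℂ} (hf : Continuous (Function.uncurry f)) :
    ∫ x in (0 : ℝ)..(2 * Real.pi), ∫ y in (0 : ℝ)..(2 * Real.pi), f x y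
      = ∫ y in (0 : ℝ)..(2 * Real.pi), ∫ x in (0 : ℝ)..(2 * Real.pi), f x y := by
  have h2 : (0 : ℝ) ≤ 2 * Real.pi := by positivity
  simp only [intervalIntegral.integral_of_le h2]
  apply MeasureTheory.integral_integral_swap
  rw [Measure.prod_restrict]
  have h3 : IntegrableOn (Function.uncurry f)
      (Icc (0 : ℝ) (2 * Real.pi) ×ˢ Icc (0 : ℝ) (2 * Real.pi)) (volume.prod volume) :=
    hf.continuousOn.integrableOn_compact (isCompact_Icc.prod isCompact_Icc)
  exact h3.mono_set (prod_mono Ioc_subset_Icc_self Ioc_subset_Icc_self)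

/-- Cauchy's formula on the unit circle, with angle as parameter. -/
lemma cauchy_angle {G : ℂ → ℂ} (hG : DiffContOnCl ℂ G (ball 0 1)) {s : ℂ} (hs : ‖s‖ < 1) :
    ∫ η in (0 : ℝ)..(2 * Real.pi), (1 - conj (circleMap 0 1 η) * s)⁻¹ * G (circleMap 0 1 η)
      = 2 * Real.pi * G s := by
  have h1 := hG.circleIntegral_sub_inv_smul (w := s) (by simpa using hs)
  unfold circleIntegral at h1
  have h2 : (∫ θ in (0 : ℝ)..(2 * Real.pi), deriv (circleMap 0 1) θ •
      ((circleMap 0 1 θ - s)⁻¹ • G (circleMap 0 1 θ)))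
      = I * ∫ η in (0 : ℝ)..(2 * Real.pi),
        (1 - conj (circleMap 0 1 η) * s)⁻¹ * G (circleMap 0 1 η) := by
    rw [← intervalIntegral.integral_const_mul]
    apply intervalIntegral.integral_congr
    intro θ _
    have hn : ‖circleMap 0 1 θ‖ = 1 := by simp
    have hne : circleMap 0 1 θ ≠ 0 := by
      intro h; rw [h] at hn; simp at hn
    have hc : conj (circleMap 0 1 θ) = (circleMap 0 1 θ)⁻¹ := by
      have h5 : conj (circleMap 0 1 θ) * circleMap 0 1 θ = 1 := by
        rw [← Complex.normSq_eq_conj_mul_self, Complex.normSq_eq_norm_sq, hn]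
        simp
      field_simp
      exact h5
    have hne2 : circleMap 0 1 θ - s ≠ 0 := by
      intro h
      have h6 : circleMap 0 1 θ = s := by linear_combination h
      rw [h6] at hn
      linarith
    simp only [deriv_circleMap, smul_eq_mul, hc]
    have hne3 : 1 - (circleMap 0 1 θ)⁻¹ * s ≠ 0 := by
      intro h
      apply hne2
      have h7 : circleMap 0 1 θ * (1 - (circleMap 0 1 θ)⁻¹ * s) = 0 := by rw [h, mul_zero]
      field_simp at h7
      exact h7
    field_simp
  rw [h2, smul_eq_mul] at h1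
  have h3 : I * (∫ η in (0 : ℝ)..(2 * Real.pi),
      (1 - conj (circleMap 0 1 η) * s)⁻¹ * G (circleMap 0 1 η))
      = I * (2 * Real.pi * G s) := by
    rw [h1]
    ring
  exact mul_left_cancel₀ I_ne_zero h3

/-- Mean value formula with the factor `(1 - t conj s)⁻¹`. -/
lemma mean_angle {G : ℂ → ℂ} (hG : DiffContOnCl ℂ G (ball 0 1)) {s : ℂ} (hs : ‖s‖ < 1) :
    ∫ η in (0 : ℝ)..(2 * Real.pi), (1 - circleMap 0 1 η * conj s)⁻¹ * G (circleMap 0 1 η)
      = 2 * Real.pi * G 0 := by
  have hne : ∀ t : ℂ, ‖t‖ ≤ 1 → 1 - t * conj s ≠ 0 := by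
    intro t ht h
    have h1 : t * conj s = 1 := by linear_combination -h
    have h2 : ‖t * conj s‖ < 1 := by
      rw [norm_mul, RCLike.norm_conj]
      calc ‖t‖ * ‖s‖ ≤ 1 * ‖s‖ := by gcongr
        _ < 1 := by linarith
    rw [h1] at h2
    simp at h2
  have h1 : DiffContOnCl ℂ (fun t => (1 - t * conj s)⁻¹ * G t) (ball 0 1) := by
    have h2 : DiffContOnCl ℂ (fun t : ℂ => (1 - t * conj s)⁻¹) (ball 0 1) := by
      apply DifferentiableOn.diffContOnCl
      rw [closure_ball _ one_ne_zero]
      intro t ht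
      apply DifferentiableAt.differentiableWithinAt
      exact DifferentiableAt.inv (by fun_prop) (hne t (by simpa using ht))
    exact h2.smul hG
  have h3 := cauchy_angle h1 (s := 0) (by simp)
  simpa using h3

section rep

variable {k τ : ℝ → ℂ} {τ0 : ℝ} (hk : Continuous k) (hτ : Continuous τ)
  (hb : ∀ θ, ‖τ θ‖ ≤ τ0) (h0 : τ0 < 1)

/-- The Cauchy transform. -/
noncomputable def cA (k τ : ℝ → ℂ) (u : ℂ) : ℂ :=
  ∫ θ in (0 : ℝ)..(2 * Real.pi), k θ * (1 - u * τ θ)⁻¹

/-- The total mass. -/
noncomputable def cB (k : ℝ → ℂ) : ℂ := ∫ θ in (0 : ℝ)..(2 * Real.pi), k θ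

/-- The density. -/
noncomputable def dens (k τ : ℝ → ℂ) (η : ℝ) : ℝ :=
  2 * (cA k τ (conj (circleMap 0 1 η)) / cB k).re - 1

lemma continuous_circle_conj : Continuous (fun η : ℝ => conj (circleMap 0 1 η)) :=
  Complex.continuous_conj.comp (continuous_circleMap 0 1)

include hb h0 in
lemma den_ne (η θ : ℝ) : 1 - conj (circleMap 0 1 η) * τ θ ≠ 0 := by
  intro h
  have h1 : conj (circleMap 0 1 η) * τ θ = 1 := by linear_combination -h
  have h2 : ‖conj (circleMap 0 1 η) * τ θ‖ < 1 := by
    rw [norm_mul, RCLike.norm_conj]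
    have : ‖circleMap 0 1 η‖ = 1 := by simp
    rw [this, one_mul]
    exact (hb θ).trans_lt h0
  rw [h1] at h2
  simp at h2

include hk hτ hb h0

lemma cont_uncurry : Continuous (Function.uncurry
    (fun (η θ : ℝ) => k θ * (1 - conj (circleMap 0 1 η) * τ θ)⁻¹)) := by
  show Continuous (fun p : ℝ × ℝ => k p.2 * (1 - conj (circleMap 0 1 p.1) * τ p.2)⁻¹)
  apply Continuous.mul (hk.comp continuous_snd)
  apply Continuous.inv₀
  · exact continuous_const.sub ((continuous_circle_conj.comp continuous_fst).mul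
      (hτ.comp continuous_snd))
  · intro p
    exact den_ne hb h0 p.1 p.2

lemma continuous_cA : Continuous (fun η : ℝ => cA k τ (conj (circleMap 0 1 η))) := by
  unfold cA
  exact intervalIntegral.continuous_parametric_intervalIntegral_of_continuous'
    (cont_uncurry hk hτ hb h0) 0 (2 * Real.pi)

lemma continuous_dens : Continuous (dens k τ) := by
  unfold dens
  have := continuous_cA hk hτ hb h0
  fun_prop

/-- first integral -/
lemma int_A {G : ℂ → ℂ} (hG : DiffContOnCl ℂ G (ball 0 1))
    (hGc : Continuous (fun η : ℝ => G (circleMap 0 1 η))) :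
    ∫ η in (0 : ℝ)..(2 * Real.pi), cA k τ (conj (circleMap 0 1 η)) * G (circleMap 0 1 η)
      = 2 * Real.pi * ∫ θ in (0 : ℝ)..(2 * Real.pi), k θ * G (τ θ) := by
  have e1 : (∫ η in (0 : ℝ)..(2 * Real.pi),
      cA k τ (conj (circleMap 0 1 η)) * G (circleMap 0 1 η))
      = ∫ η in (0 : ℝ)..(2 * Real.pi), ∫ θ in (0 : ℝ)..(2 * Real.pi),
        (k θ * (1 - conj (circleMap 0 1 η) * τ θ)⁻¹) * G (circleMap 0 1 η) := by
    apply intervalIntegral.integral_congr
    intro η _
    simp only
    rw [intervalIntegral.integral_mul_const]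
    rfl
  rw [e1, swap_int (f := fun η θ =>
    (k θ * (1 - conj (circleMap 0 1 η) * τ θ)⁻¹) * G (circleMap 0 1 η))
    ((cont_uncurry hk hτ hb h0).mul (hGc.comp continuous_fst)),
    ← intervalIntegral.integral_const_mul]
  apply intervalIntegral.integral_congr
  intro θ _
  simp only
  have h1 := cauchy_angle hG (s := τ θ) ((hb θ).trans_lt h0)
  have h2 : (∫ η in (0 : ℝ)..(2 * Real.pi),
      k θ * (1 - conj (circleMap 0 1 η) * τ θ)⁻¹ * G (circleMap 0 1 η))
      = k θ * ∫ η in (0 : ℝ)..(2 * Real.pi),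
        (1 - conj (circleMap 0 1 η) * τ θ)⁻¹ * G (circleMap 0 1 η) := by
    rw [← intervalIntegral.integral_const_mul]
    apply intervalIntegral.integral_congr
    intro η _
    simp only
    ring
  rw [h2, h1]
  ring

/-- second integral -/
lemma int_conj_A {G : ℂ → ℂ} (hG : DiffContOnCl ℂ G (ball 0 1))
    (hGc : Continuous (fun η : ℝ => G (circleMap 0 1 η))) :
    ∫ η in (0 : ℝ)..(2 * Real.pi), conj (cA k τ (conj (circleMap 0 1 η))) * G (circleMap 0 1 η)
      = 2 * Real.pi * (conj (cB k) * G 0) := by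
  have e0 : ∀ η : ℝ, conj (cA k τ (conj (circleMap 0 1 η)))
      = ∫ θ in (0 : ℝ)..(2 * Real.pi), conj (k θ * (1 - conj (circleMap 0 1 η) * τ θ)⁻¹) := by
    intro η
    unfold cA
    exact intervalIntegral.intervalIntegral_conj.symm
  have hcc : Continuous (Function.uncurry
    (fun (η θ : ℝ) => conj (k θ * (1 - conj (circleMap 0 1 η) * τ θ)⁻¹))) :=
    Complex.continuous_conj.comp (cont_uncurry hk hτ hb h0)
  have e1 : (∫ η in (0 : ℝ)..(2 * Real.pi),
      conj (cA k τ (conj (circleMap 0 1 η))) * G (circleMap 0 1 η))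
      = ∫ η in (0 : ℝ)..(2 * Real.pi), ∫ θ in (0 : ℝ)..(2 * Real.pi),
        conj (k θ * (1 - conj (circleMap 0 1 η) * τ θ)⁻¹) * G (circleMap 0 1 η) := by
    apply intervalIntegral.integral_congr
    intro η _
    simp only
    rw [intervalIntegral.integral_mul_const, e0]
  rw [e1, swap_int (f := fun η θ =>
    conj (k θ * (1 - conj (circleMap 0 1 η) * τ θ)⁻¹) * G (circleMap 0 1 η))
    (hcc.mul (hGc.comp continuous_fst))]
  have e2 : conj (cB k) = ∫ θ in (0 : ℝ)..(2 * Real.pi), conj (k θ) := by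
    unfold cB
    exact intervalIntegral.intervalIntegral_conj.symm
  rw [e2, ← intervalIntegral.integral_mul_const, ← intervalIntegral.integral_const_mul]
  apply intervalIntegral.integral_congr
  intro θ _
  simp only
  have h1 := mean_angle hG (s := τ θ) ((hb θ).trans_lt h0)
  have h2 : (∫ η in (0 : ℝ)..(2 * Real.pi),
      conj (k θ * (1 - conj (circleMap 0 1 η) * τ θ)⁻¹) * G (circleMap 0 1 η))
      = conj (k θ) * ∫ η in (0 : ℝ)..(2 * Real.pi),
        (1 - circleMap 0 1 η * conj (τ θ))⁻¹ * G (circleMap 0 1 η) := by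
    rw [← intervalIntegral.integral_const_mul]
    apply intervalIntegral.integral_congr
    intro η _
    simp only [map_mul, map_inv₀, map_sub, map_one, Complex.conj_conj]
    ring
  rw [h2, h1]
  ring

/-- The representation formula. -/
lemma rep_formula (hB : cB k ≠ 0) {G : ℂ → ℂ} (hG : DiffContOnCl ℂ G (ball 0 1))
    (hGc : Continuous (fun η : ℝ => G (circleMap 0 1 η))) :
    ∫ η in (0 : ℝ)..(2 * Real.pi), (dens k τ η : ℂ) * G (circleMap 0 1 η)
      = 2 * Real.pi * ((∫ θ in (0 : ℝ)..(2 * Real.pi), k θ * G (τ θ)) / cB k) := by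
  have hBc : conj (cB k) ≠ 0 := by rw [Ne, map_eq_zero]; exact hB
  have hA := continuous_cA hk hτ hb h0
  have hAc : Continuous (fun η : ℝ => conj (cA k τ (conj (circleMap 0 1 η)))) :=
    Complex.continuous_conj.comp hA
  have h1 := int_A hk hτ hb h0 hG hGc
  have h2 := int_conj_A hk hτ hb h0 hG hGc
  have h3 : ∫ η in (0 : ℝ)..(2 * Real.pi), G (circleMap 0 1 η) = 2 * Real.pi * G 0 := by
    have := cauchy_angle hG (s := 0) (by simp)
    simpa using this
  have e1 : (∫ η in (0 : ℝ)..(2 * Real.pi), (dens k τ η : ℂ) * G (circleMap 0 1 η))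
      = (cB k)⁻¹ * (∫ η in (0 : ℝ)..(2 * Real.pi),
          cA k τ (conj (circleMap 0 1 η)) * G (circleMap 0 1 η))
        + (conj (cB k))⁻¹ * (∫ η in (0 : ℝ)..(2 * Real.pi),
          conj (cA k τ (conj (circleMap 0 1 η))) * G (circleMap 0 1 η))
        - ∫ η in (0 : ℝ)..(2 * Real.pi), G (circleMap 0 1 η) := by
    rw [← intervalIntegral.integral_const_mul, ← intervalIntegral.integral_const_mul,
      ← intervalIntegral.integral_add, ← intervalIntegral.integral_sub]
    · apply intervalIntegral.integral_congr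
      intro η _
      simp only
      have h4 : (dens k τ η : ℂ) = cA k τ (conj (circleMap 0 1 η)) / cB k
          + conj (cA k τ (conj (circleMap 0 1 η)) / cB k) - 1 := by
        rw [Complex.add_conj]
        unfold dens
        push_cast
        ring
      rw [h4, map_div₀]
      field_simp
    · exact ((continuous_const.mul (hA.mul hGc)).add
        (continuous_const.mul (hAc.mul hGc))).intervalIntegrable _ _
    · exact hGc.intervalIntegrable _ _
    · exact (continuous_const.mul (hA.mul hGc)).intervalIntegrable _ _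
    · exact (continuous_const.mul (hAc.mul hGc)).intervalIntegrable _ _
  rw [e1, h1, h2, h3]
  field_simp
  ring

lemma int_dens (hB : cB k ≠ 0) : ∫ η in (0 : ℝ)..(2 * Real.pi), dens k τ η = 2 * Real.pi := by
  have h1 := rep_formula hk hτ hb h0 hB (G := fun _ => 1) diffContOnCl_const continuous_const
  simp only [mul_one] at h1
  have h2 : (∫ θ in (0 : ℝ)..(2 * Real.pi), k θ) = cB k := rfl
  rw [h2, div_self hB, mul_one, intervalIntegral.integral_ofReal] at h1
  exact_mod_cast h1

/-- If the density is positive then the average lies in every open convex set containing the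
values of `G` on the unit circle. -/
lemma mem_of_open_convex (hB : cB k ≠ 0) (hpos : ∀ η, 0 < dens k τ η) {G : ℂ → ℂ}
    (hG : DiffContOnCl ℂ G (ball 0 1)) (hGc : Continuous (fun η : ℝ => G (circleMap 0 1 η)))
    {S : Set ℂ} (hS : Convex ℝ S) (hSo : IsOpen S) (hGS : ∀ η : ℝ, G (circleMap 0 1 η) ∈ S) :
    (∫ θ in (0 : ℝ)..(2 * Real.pi), k θ * G (τ θ)) / cB k ∈ S := by
  by_contra hcon
  set v : ℂ := (∫ θ in (0 : ℝ)..(2 * Real.pi), k θ * G (τ θ)) / cB k with hv
  obtain ⟨f, hf⟩ := geometric_hahn_banach_open_point hS hSo hcon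
  have hrep := rep_formula hk hτ hb h0 hB hG hGc
  rw [← hv] at hrep
  have hd := continuous_dens hk hτ hb h0
  have h1 : f (∫ η in (0 : ℝ)..(2 * Real.pi), (dens k τ η : ℂ) * G (circleMap 0 1 η))
      = ∫ η in (0 : ℝ)..(2 * Real.pi), dens k τ η * f (G (circleMap 0 1 η)) := by
    rw [← ContinuousLinearMap.intervalIntegral_comp_comm]
    · apply intervalIntegral.integral_congr
      intro η _
      simp only
      rw [← Complex.real_smul, map_smul, smul_eq_mul]
    · exact ((Complex.continuous_ofReal.comp hd).mul hGc).intervalIntegrable _ _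
  have h2 : f (2 * Real.pi * v) = 2 * Real.pi * f v := by
    have : (2 * Real.pi * v : ℂ) = ((2 * Real.pi : ℝ) : ℂ) * v := by push_cast; ring
    rw [this, ← Complex.real_smul, map_smul, smul_eq_mul]
  rw [hrep, h2] at h1
  have hfc : Continuous (fun η : ℝ => f (G (circleMap 0 1 η))) := f.continuous.comp hGc
  have h3 : 0 < ∫ η in (0 : ℝ)..(2 * Real.pi), dens k τ η * (f v - f (G (circleMap 0 1 η))) := by
    apply intervalIntegral.intervalIntegral_pos_of_pos
    · exact (hd.mul (continuous_const.sub hfc)).intervalIntegrable _ _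
    · intro η
      exact mul_pos (hpos η) (sub_pos.mpr (hf _ (hGS η)))
    · positivity
  have h4 : (∫ η in (0 : ℝ)..(2 * Real.pi), dens k τ η * (f v - f (G (circleMap 0 1 η))))
      = (∫ η in (0 : ℝ)..(2 * Real.pi), dens k τ η) * f v
        - ∫ η in (0 : ℝ)..(2 * Real.pi), dens k τ η * f (G (circleMap 0 1 η)) := by
    rw [← intervalIntegral.integral_mul_const, ← intervalIntegral.integral_sub]
    · apply intervalIntegral.integral_congr
      intro η _
      simp only
      ring
    · exact (hd.mul continuous_const).intervalIntegrable _ _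
    · exact (hd.mul hfc).intervalIntegrable _ _
  rw [h4, int_dens hk hτ hb h0 hB, ← h1] at h3
  linarith

end rep

/-- The average of an analytic function on the disc of radius less than one lies in the convex hull
of the image of the open disc. -/
lemma mem_convexHull {k τ : ℝ → ℂ} {τ0 : ℝ} (hk : Continuous k) (hτ : Continuous τ)
    (hb : ∀ θ, ‖τ θ‖ ≤ τ0) (h0 : τ0 < 1) (hB : cB k ≠ 0) (hpos : ∀ η, 0 < dens k τ η)
    {g : ℂ → ℂ} (hg : DifferentiableOn ℂ g (ball 0 1)) {w : ℂ} (hw : ‖w‖ < 1) :
    (∫ θ in (0 : ℝ)..(2 * Real.pi), k θ * g (w * τ θ)) / cB k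
      ∈ convexHull ℝ (g '' ball 0 1) := by
  have hτ1 : ∀ θ, ‖τ θ‖ < 1 := fun θ => (hb θ).trans_lt h0
  have hmem : ∀ t : ℂ, ‖t‖ ≤ 1 → w * t ∈ ball (0 : ℂ) 1 := by
    intro t ht
    rw [mem_ball, dist_zero_right, norm_mul]
    calc ‖w‖ * ‖t‖ ≤ ‖w‖ * 1 := by gcongr
      _ < 1 := by linarith
  rcases (hg.analyticOnNhd isOpen_ball).is_constant_or_isOpen
    (convex_ball (0 : ℂ) 1).isPreconnected with ⟨c, hc⟩ | hopen
  · apply subset_convexHull
    refine ⟨0, by simp, ?_⟩
    rw [hc 0 (by simp)]
    have h1 : (∫ θ in (0 : ℝ)..(2 * Real.pi), k θ * g (w * τ θ)) = cB k * c := by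
      unfold cB
      rw [← intervalIntegral.integral_mul_const]
      apply intervalIntegral.integral_congr
      intro θ _
      simp only
      rw [hc _ (hmem _ (hτ1 θ).le)]
    rw [h1]
    field_simp
  · have hG : DiffContOnCl ℂ (fun t => g (w * t)) (ball 0 1) := by
      apply DifferentiableOn.diffContOnCl
      rw [closure_ball _ one_ne_zero]
      intro t ht
      have ht1 : ‖t‖ ≤ 1 := by simpa using ht
      apply DifferentiableAt.differentiableWithinAt
      have h1 : DifferentiableAt ℂ g (w * t) :=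
        (hg _ (hmem t ht1)).differentiableAt (isOpen_ball.mem_nhds (hmem t ht1))
      exact h1.comp t (by fun_prop)
    have hGc : Continuous (fun η : ℝ => (fun t => g (w * t)) (circleMap 0 1 η)) := by
      apply hg.continuousOn.comp_continuous
      · exact continuous_const.mul (continuous_circleMap 0 1)
      · intro η
        exact hmem _ (by simp)
    apply mem_of_open_convex hk hτ hb h0 hB hpos hG hGc (convex_convexHull ℝ _)
    · exact (hopen _ (Subset.refl _) isOpen_ball).convexHull
    · intro η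
      apply subset_convexHull
      exact ⟨w * circleMap 0 1 η, hmem _ (by simp), rfl⟩

end Pool.Agent.H73.Had
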