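import Pool.Agent.H73.HadOne
import Pool.Agent.H73.HadRep
import Pool.Agent.H73.HadHalf
import Pool.Agent.H26.HCFinal

/-!
From the nonvanishing of all Hadamard products with `(1 + x z)^α (1 - z)^(-β)` to the convex hull
property of the quotients with `(1 + x z)^(α - 1) (1 - z)^(1 - β)` in the denominator.
-/

set_option autoImplicit false

open Complex Metric Set MeasureTheory
open scoped ComplexConjugate

namespace Pool.Agent.H73.Had

open Pool.Agent.H26.HC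

/-- The Hadamard product. -/
noncomputable def hd (φ f : ℂ → ℂ) (z : ℂ) : ℂ :=
  ∑' n : ℕ, (iteratedDeriv n φ 0 / (n.factorial : ℂ)) *
    (iteratedDeriv n f 0 / (n.factorial : ℂ)) * z ^ n

/-- The kernel. -/
noncomputable def kr (c d : ℂ) (x w : ℂ) : ℂ := (1 + x * w) ^ c * (1 - w) ^ d

lemma kr_diff {x : ℂ} (hx : ‖x‖ ≤ 1) (c d : ℂ) : DifferentiableOn ℂ (kr c d x) (ball 0 1) := by
  intro w hw
  have hw1 : ‖w‖ < 1 := by simpa using hw
  apply DifferentiableAt.differentiableWithinAt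
  unfold kr
  apply DifferentiableAt.mul
  · apply DifferentiableAt.cpow_const (by fun_prop)
    exact Or.inl (re_pos_one_add hx hw1)
  · apply DifferentiableAt.cpow_const (by fun_prop)
    exact Or.inl (re_pos_one_sub hw1)

lemma re_gt_half {q : ℂ} (h : ‖q - 1‖ < ‖q‖) : 1 / 2 < q.re := by
  have h1 : ‖q - 1‖ ^ 2 < ‖q‖ ^ 2 := pow_lt_pow_left₀ h (norm_nonneg _) two_ne_zero
  simp only [← Complex.normSq_eq_norm_sq, Complex.normSq_apply, Complex.sub_re, Complex.sub_im,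
    Complex.one_re, Complex.one_im] at h1
  nlinarith

/-- The convex hull theorem. -/
theorem quot_hull {α β : ℝ} (hα : 1 ≤ α) (hβ : 1 ≤ β) {φ : ℂ → ℂ}
    (hφ : DifferentiableOn ℂ φ (ball (0 : ℂ) 1))
    (hN : ∀ x : ℂ, ‖x‖ = 1 → ∀ z : ℂ, ‖z‖ < 1 → hd φ (kr (α : ℂ) (-(β : ℂ)) x) z ≠ 0)
    {x0 : ℂ} (hx0 : ‖x0‖ ≤ 1) {z0 : ℂ} (hz0 : ‖z0‖ < 1) :
    hd φ (kr ((α : ℂ) - 1) (1 - (β : ℂ)) x0) z0 ≠ 0 ∧
    ∀ g : ℂ → ℂ, DifferentiableOn ℂ g (ball 0 1) →
      hd φ (fun w => kr ((α : ℂ) - 1) (1 - (β : ℂ)) x0 w * g w) z0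
        / hd φ (kr ((α : ℂ) - 1) (1 - (β : ℂ)) x0) z0 ∈ convexHull ℝ (g '' ball 0 1) := by
  obtain ⟨r, hr1, hr2⟩ := exists_between hz0
  obtain ⟨R, hR1, hR2⟩ := exists_between hr2
  have hr0 : 0 < r := (norm_nonneg z0).trans_lt hr1
  have hR0 : 0 < R := hr0.trans hR1
  have hcirc : ∀ θ : ℝ, circleMap 0 R θ ∈ ball (0 : ℂ) 1 := by
    intro θ
    simp [abs_of_pos hR0, hR2]
  set ψ : ℝ → ℂ := fun θ => φ (circleMap 0 R θ) with hψdef
  set τ : ℝ → ℂ := fun θ => (r : ℂ) * (circleMap 0 R θ)⁻¹ with hτdef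
  have hψ : Continuous ψ := hφ.continuousOn.comp_continuous (continuous_circleMap 0 R) hcirc
  have hτ : Continuous τ :=
    continuous_const.mul ((continuous_circleMap 0 R).inv₀ (fun θ => circleMap_ne_center hR0.ne'))
  have hb : ∀ θ, ‖τ θ‖ ≤ r / R := by
    intro θ
    rw [hτdef]
    simp only [norm_mul, norm_inv, norm_circleMap_zero, Complex.norm_real, Real.norm_eq_abs,
      abs_of_pos hR0, abs_of_pos hr0]
    rw [div_eq_mul_inv]
  have h0 : r / R < 1 := by rw [div_lt_one hR0]; exact hR1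
  -- Hadamard products in terms of the functional
  have hH : ∀ (c d x w : ℂ) (g : ℂ → ℂ), ‖x‖ ≤ 1 → ‖w‖ ≤ 1 → DifferentiableOn ℂ g (ball 0 1) →
      (2 * Real.pi) * hd φ (fun v => kr c d x v * g v) (r * w)
        = ∫ θ in (0 : ℝ)..(2 * Real.pi),
          (ψ θ * (1 - -(x * w) * τ θ) ^ c * (1 - w * τ θ) ^ d) * g (w * τ θ) := by
    intro c d x w g hx hw hg
    have hfd : DifferentiableOn ℂ (fun v => kr c d x v * g v) (ball 0 1) :=
      (kr_diff hx c d).mul hg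
    have hrw : ‖(r : ℂ) * w‖ < R := by
      rw [norm_mul, Complex.norm_real, Real.norm_eq_abs, abs_of_pos hr0]
      nlinarith [norm_nonneg w]
    have h1 := hadamard_eq hφ hfd hR0 hR2 hrw
    refine h1.trans ?_
    apply intervalIntegral.integral_congr
    intro θ _
    simp only [hψdef, hτdef, kr]
    rw [show (1 : ℂ) + x * (r * w * (circleMap 0 R θ)⁻¹)
        = 1 - -(x * w) * (r * (circleMap 0 R θ)⁻¹) by ring,
      show (1 : ℂ) - r * w * (circleMap 0 R θ)⁻¹ = 1 - w * (r * (circleMap 0 R θ)⁻¹) by ring,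
      show (r : ℂ) * w * (circleMap 0 R θ)⁻¹ = w * (r * (circleMap 0 R θ)⁻¹) by ring]
    ring
  have hH1 : ∀ (c d x w : ℂ), ‖x‖ ≤ 1 → ‖w‖ ≤ 1 →
      (2 * Real.pi) * hd φ (kr c d x) (r * w) = fB ψ τ c d (-(x * w)) w := by
    intro c d x w hx hw
    have h1 := hH c d x w (fun _ => 1) hx hw (differentiableOn_const _)
    simp only [mul_one] at h1
    exact h1
  have h2pi : (2 * Real.pi : ℂ) ≠ 0 := by
    have := Real.pi_ne_zero
    exact_mod_cast mul_ne_zero two_ne_zero this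
  -- nonvanishing on the closed bidisc
  have hF : ∀ y w : ℂ, ‖y‖ ≤ 1 → ‖w‖ ≤ 1 → fB ψ τ (α : ℂ) (-(β : ℂ)) y w ≠ 0 := by
    apply bidisc_ne
    · have h1 := continuousOn_fA_scaled hψ hτ hb h0 (α : ℂ) (-(β : ℂ))
      have h2 : ContinuousOn (fun p : ℂ × ℂ => fA ψ (fun θ => ((1 : ℝ) : ℂ) * τ θ) (α : ℂ) (-(β : ℂ))
          0 p.1 p.2) (closedBall 0 1 ×ˢ closedBall 0 1) := by
        apply h1.comp (f := fun p : ℂ × ℂ => ((1 : ℝ), (0 : ℂ), p.1, p.2)) (by fun_prop)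
        intro p hp
        exact ⟨by simp, by simp, hp.1, hp.2⟩
      refine h2.congr ?_
      intro p _
      unfold fA fB
      simp
    · intro y w hy hw
      obtain ⟨D, hD, _⟩ := hasDerivAt_fB_y hψ hτ hb h0 (α : ℂ) (-(β : ℂ)) hy hw
      exact hD.differentiableAt
    · intro y w hy hw
      obtain ⟨D, hD, _⟩ := hasDerivAt_fB_w hψ hτ hb h0 (α : ℂ) (-(β : ℂ)) hy hw
      exact hD.differentiableAt
    · intro y w hy hyw
      have hw : ‖w‖ ≤ 1 := hyw ▸ hy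
      obtain ⟨x, hx, hxy⟩ : ∃ x : ℂ, ‖x‖ = 1 ∧ y = -(x * w) := by
        by_cases hw0 : w = 0
        · refine ⟨1, by simp, ?_⟩
          rw [hw0, norm_zero, norm_eq_zero] at hyw
          rw [hyw, hw0]; simp
        · refine ⟨-(y / w), ?_, by field_simp⟩
          rw [norm_neg, norm_div, hyw, div_self (norm_ne_zero_iff.mpr hw0)]
      rw [hxy, ← hH1 (α : ℂ) (-(β : ℂ)) x w hx.le hw]
      apply mul_ne_zero h2pi
      apply hN x hx
      rw [norm_mul, Complex.norm_real, Real.norm_eq_abs, abs_of_pos hr0]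
      nlinarith [norm_nonneg w]
  -- the point
  set w : ℂ := z0 / r with hw
  have hrC : (r : ℂ) ≠ 0 := by exact_mod_cast hr0.ne'
  have hwn : ‖w‖ < 1 := by
    rw [hw, norm_div, Complex.norm_real, Real.norm_eq_abs, abs_of_pos hr0]
    rw [div_lt_one hr0]
    exact hr1
  have hz : z0 = r * w := by rw [hw]; field_simp
  have hyn : ‖-(x0 * w)‖ ≤ 1 := by
    rw [norm_neg, norm_mul]
    calc ‖x0‖ * ‖w‖ ≤ 1 * ‖w‖ := by gcongr
      _ ≤ 1 := by linarith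
  set y : ℂ := -(x0 * w) with hy
  have hstrict : ∀ u : ℂ, ‖u‖ ≤ 1 → ‖fA1 ψ τ ((α : ℂ) - 1) (1 - (β : ℂ)) u y w‖
      < ‖fA ψ τ ((α : ℂ) - 1) (1 - (β : ℂ)) u y w‖ := by
    intro u hu
    exact strict_ge hψ hτ hb h0 hα hβ hF hu hyn hwn.le
  have hBne : fB ψ τ ((α : ℂ) - 1) (1 - (β : ℂ)) y w ≠ 0 := by
    have h1 := fA_sub hψ hτ hb h0 ((α : ℂ) - 1) (1 - (β : ℂ)) (u := 0) (by simp) hyn hwn.le
    rw [zero_mul, sub_zero] at h1
    rw [← h1, ← norm_ne_zero_iff]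
    exact ((norm_nonneg _).trans_lt (hstrict 0 (by simp))).ne'
  have hBeq : (2 * Real.pi) * hd φ (kr ((α : ℂ) - 1) (1 - (β : ℂ)) x0) z0
      = fB ψ τ ((α : ℂ) - 1) (1 - (β : ℂ)) y w := by
    rw [hz, hH1 _ _ x0 w hx0 hwn.le]
  have hne : hd φ (kr ((α : ℂ) - 1) (1 - (β : ℂ)) x0) z0 ≠ 0 := by
    intro h
    rw [h, mul_zero] at hBeq
    exact hBne hBeq.symm
  refine ⟨hne, ?_⟩
  intro g hg
  set k : ℝ → ℂ := fun θ => ψ θ * (1 - y * τ θ) ^ ((α : ℂ) - 1) * (1 - w * τ θ) ^ (1 - (β : ℂ))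
    with hk
  have hkc : Continuous k := cont_k hψ hτ hb h0 _ _ hyn hwn.le
  have hcB : cB k = fB ψ τ ((α : ℂ) - 1) (1 - (β : ℂ)) y w := rfl
  have hcA : ∀ u, cA k τ u = fA ψ τ ((α : ℂ) - 1) (1 - (β : ℂ)) u y w := fun u => rfl
  have hpos : ∀ η, 0 < dens k τ η := by
    intro η
    unfold dens
    rw [hcB, hcA]
    set u : ℂ := conj (circleMap 0 1 η) with hu
    have hu1 : ‖u‖ = 1 := by rw [hu, RCLike.norm_conj]; simp
    have h1 : 1 / 2 < (fA ψ τ ((α : ℂ) - 1) (1 - (β : ℂ)) u y w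
        / fB ψ τ ((α : ℂ) - 1) (1 - (β : ℂ)) y w).re := by
      apply re_gt_half
      have h2 := fA_sub hψ hτ hb h0 ((α : ℂ) - 1) (1 - (β : ℂ)) hu1.le hyn hwn.le
      have h3 : fA ψ τ ((α : ℂ) - 1) (1 - (β : ℂ)) u y w
          / fB ψ τ ((α : ℂ) - 1) (1 - (β : ℂ)) y w - 1
          = u * fA1 ψ τ ((α : ℂ) - 1) (1 - (β : ℂ)) u y w
            / fB ψ τ ((α : ℂ) - 1) (1 - (β : ℂ)) y w := by
        field_simp
        linear_combination h2
      rw [h3, norm_div, norm_div, norm_mul, hu1, one_mul]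
      exact div_lt_div_of_pos_right (hstrict u hu1.le) (norm_pos_iff.mpr hBne)
    linarith
  have hfin := mem_convexHull hkc hτ hb h0 (by rw [hcB]; exact hBne) hpos hg hwn
  have hval : (2 * Real.pi) * hd φ (fun v => kr ((α : ℂ) - 1) (1 - (β : ℂ)) x0 v * g v) z0
      = ∫ θ in (0 : ℝ)..(2 * Real.pi), k θ * g (w * τ θ) := by
    rw [hz, hH _ _ x0 w g hx0 hwn.le hg]
  have hq : hd φ (fun v => kr ((α : ℂ) - 1) (1 - (β : ℂ)) x0 v * g v) z0
        / hd φ (kr ((α : ℂ) - 1) (1 - (β : ℂ)) x0) z0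
      = (∫ θ in (0 : ℝ)..(2 * Real.pi), k θ * g (w * τ θ)) / cB k := by
    rw [← hval, hcB, ← hBeq]
    field_simp
  rw [hq]
  exact hfin

/-- If the quotient is in the convex hull then products of the kernel with powers do not vanish. -/
theorem step {α β : ℝ} (hα : 1 ≤ α) (hβ : 1 ≤ β) {φ : ℂ → ℂ}
    (hφ : DifferentiableOn ℂ φ (ball (0 : ℂ) 1))
    (hN : ∀ x : ℂ, ‖x‖ = 1 → ∀ z : ℂ, ‖z‖ < 1 → hd φ (kr (α : ℂ) (-(β : ℂ)) x) z ≠ 0)
    {γ δ : ℝ} (hγ0 : α - 1 ≤ γ) (hγ1 : γ ≤ α) (hδ0 : β - 1 ≤ δ) (hδ1 : δ ≤ β)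
    {x0 : ℂ} (hx0 : ‖x0‖ ≤ 1) {z0 : ℂ} (hz0 : ‖z0‖ < 1) :
    hd φ (kr (γ : ℂ) (-(δ : ℂ)) x0) z0 ≠ 0 := by
  obtain ⟨hne, hhull⟩ := quot_hull hα hβ hφ hN hx0 hz0
  obtain ⟨c, hc⟩ := half_plane hx0 (p := γ - α + 1) (q := δ - β + 1) (by linarith) (by linarith)
    (by linarith) (by linarith)
  set g : ℂ → ℂ := fun s => (1 + x0 * s) ^ ((γ - α + 1 : ℝ) : ℂ)
    * (1 - s) ^ (-((δ - β + 1 : ℝ) : ℂ)) with hg
  have hgd : DifferentiableOn ℂ g (ball 0 1) := kr_diff hx0 _ _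
  have h1 := hhull g hgd
  have hsub : convexHull ℝ (g '' ball 0 1) ⊆ {v : ℂ | 0 < (c * v).re} := by
    apply convexHull_min
    · rintro _ ⟨s, hs, rfl⟩
      exact hc s (by simpa using hs)
    · intro v hv v' hv' a b ha hb' hab
      simp only [Set.mem_ofPred_eq] at hv hv' ⊢
      have e : (c * (a • v + b • v')).re = a * (c * v).re + b * (c * v').re := by
        simp only [Complex.mul_re, Complex.add_re, Complex.add_im, Complex.real_smul,
          Complex.mul_im, Complex.ofReal_re, Complex.ofReal_im]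
        ring
      rw [e]
      rcases ha.lt_or_eq with h | h
      · have h2 := mul_pos h hv
        have h3 := mul_nonneg hb' hv'.le
        linarith
      · have hb1 : b = 1 := by linarith
        rw [← h, hb1]
        linarith
  have h2 : 0 < (c * (hd φ (fun w => kr ((α : ℂ) - 1) (1 - (β : ℂ)) x0 w * g w) z0
        / hd φ (kr ((α : ℂ) - 1) (1 - (β : ℂ)) x0) z0)).re := hsub h1
  have heq : hd φ (fun w => kr ((α : ℂ) - 1) (1 - (β : ℂ)) x0 w * g w) z0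
      = hd φ (kr (γ : ℂ) (-(δ : ℂ)) x0) z0 := by
    unfold hd
    congr 1
    funext n
    congr 3
    apply Filter.EventuallyEq.iteratedDeriv_eq
    filter_upwards [isOpen_ball.mem_nhds (show (0 : ℂ) ∈ ball (0 : ℂ) 1 by simp)] with s hs
    have hs1 : ‖s‖ < 1 := by simpa using hs
    have hn1 := ne_zero_of_re (re_pos_one_add hx0 hs1)
    have hn2 := ne_zero_of_re (re_pos_one_sub hs1)
    have e1 : (γ : ℂ) = ((α : ℂ) - 1) + ((γ - α + 1 : ℝ) : ℂ) := by push_cast; ring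
    have e2 : -(δ : ℂ) = (1 - (β : ℂ)) + (-((δ - β + 1 : ℝ) : ℂ)) := by push_cast; ring
    simp only [kr, hg]
    rw [e1, e2, Complex.cpow_add _ _ hn1, Complex.cpow_add _ _ hn2]
    ring
  intro hzero
  rw [heq, hzero] at h2
  simp at h2

/-- All smaller exponents. -/
theorem all_smaller (γ δ : ℝ) (hγ : 0 ≤ γ) (hδ : 0 ≤ δ) {φ : ℂ → ℂ}
    (hφ : DifferentiableOn ℂ φ (ball (0 : ℂ) 1)) (n : ℕ) :
    ∀ α β : ℝ, 1 ≤ α → 1 ≤ β → γ ≤ α → δ ≤ β → α ≤ max γ 1 + n → β ≤ max δ 1 + n →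
    (∀ x : ℂ, ‖x‖ = 1 → ∀ z : ℂ, ‖z‖ < 1 → hd φ (kr (α : ℂ) (-(β : ℂ)) x) z ≠ 0) →
    ∀ x : ℂ, ‖x‖ ≤ 1 → ∀ z : ℂ, ‖z‖ < 1 → hd φ (kr (γ : ℂ) (-(δ : ℂ)) x) z ≠ 0 := by
  induction n with
  | zero =>
    intro α β hα hβ hγα hδβ hαn hβn hN x hx z hz
    simp only [Nat.cast_zero, add_zero] at hαn hβn
    refine step hα hβ hφ hN ?_ hγα ?_ hδβ hx hz
    · rcases le_total γ 1 with h | h
      · rw [max_eq_right h] at hαn; linarith
      · rw [max_eq_left h] at hαn; linarith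
    · rcases le_total δ 1 with h | h
      · rw [max_eq_right h] at hβn; linarith
      · rw [max_eq_left h] at hβn; linarith
  | succ n ih =>
    intro α β hα hβ hγα hδβ hαn hβn hN x hx z hz
    push_cast at hαn hβn
    have h1 : γ ≤ max (max γ 1) (α - 1) := (le_max_left _ _).trans (le_max_left _ _)
    have h2 : δ ≤ max (max δ 1) (β - 1) := (le_max_left _ _).trans (le_max_left _ _)
    have h3 : 1 ≤ max (max γ 1) (α - 1) := (le_max_right _ _).trans (le_max_left _ _)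
    have h4 : 1 ≤ max (max δ 1) (β - 1) := (le_max_right _ _).trans (le_max_left _ _)
    have h5 : max (max γ 1) (α - 1) ≤ α := max_le (max_le hγα hα) (by linarith)
    have h6 : max (max δ 1) (β - 1) ≤ β := max_le (max_le hδβ hβ) (by linarith)
    have hn0 : (0 : ℝ) ≤ n := Nat.cast_nonneg n
    apply ih (max (max γ 1) (α - 1)) (max (max δ 1) (β - 1)) h3 h4 h1 h2
    · apply max_le
      · linarith
      · linarith
    · apply max_le
      · linarith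
      · linarith
    · intro x hx z hz
      exact step hα hβ hφ hN (le_max_right _ _) h5 (le_max_right _ _) h6 hx.le hz
    · exact hx
    · exact hz

end Pool.Agent.H73.Had
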