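import Pool.Agent.H26.HCScale

/-!
The strict inequality of `Pool.Agent.H26.HC.strict_of_ne` also for `α = 1`.
-/

set_option autoImplicit false

open Complex Metric Set MeasureTheory
open scoped ComplexConjugate

namespace Pool.Agent.H73.Had

open Pool.Agent.H26.HC

variable {ψ τ : ℝ → ℂ} {τ0 : ℝ} (hψ : Continuous ψ) (hτ : Continuous τ)
  (hb : ∀ θ, ‖τ θ‖ ≤ τ0) (h0 : τ0 < 1) {b : ℂ}

lemma fA_a0 (b u y y' w : ℂ) : fA ψ τ 0 b u y w = fA ψ τ 0 b u y' w := by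
  unfold fA
  simp

lemma fA1_a0 (b u y y' w : ℂ) : fA1 ψ τ 0 b u y w = fA1 ψ τ 0 b u y' w := by
  unfold fA1
  simp

include hψ hτ hb h0

/-- for `α = 1` there is no touching point with `u = w` -/
lemma no_w_one
    (H1 : ∀ u y w : ℂ, ‖u‖ ≤ 1 → ‖y‖ ≤ 1 → ‖w‖ ≤ 1 →
      ‖fA1 ψ τ 0 b u y w‖ ≤ ‖fA ψ τ 0 b u y w‖)
    (H2 : ∀ y w : ℂ, ‖y‖ ≤ 1 → ‖w‖ ≤ 1 → fB ψ τ (0 + 1) (b - 1) y w ≠ 0)
    {y w : ℂ} (hy : ‖y‖ ≤ 1) (hw : ‖w‖ ≤ 1)
    (h : ‖fA1 ψ τ 0 b w y w‖ = ‖fA ψ τ 0 b w y w‖) : False := by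
  have hA := crit_A_ne hψ hτ hb h0 H1 H2 hw hy hw
  have hA1 : fA1 ψ τ 0 b w y w ≠ 0 := by
    rw [← norm_ne_zero_iff, h]
    exact norm_ne_zero_iff.mpr hA
  set y' : ℂ := fA ψ τ 0 b w y w / fA1 ψ τ 0 b w y w with hy'
  have hn : ‖y'‖ = 1 := by
    rw [hy', norm_div, h]
    exact div_self (norm_ne_zero_iff.mpr hA)
  apply H2 y' w hn.le hw
  rw [fF_eq hψ hτ hb h0 0 b hn.le hw, fA_a0 b w y' y w, fA1_a0 b w y' y w, hy']
  field_simp
  ring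

/-- The critical theorem for `α = 1`. -/
theorem critical_one {β : ℝ} (hβ : 1 ≤ β) (hbb : b = 1 - (β : ℂ))
    (H1 : ∀ u y w : ℂ, ‖u‖ ≤ 1 → ‖y‖ ≤ 1 → ‖w‖ ≤ 1 →
      ‖fA1 ψ τ 0 b u y w‖ ≤ ‖fA ψ τ 0 b u y w‖)
    (H2 : ∀ y w : ℂ, ‖y‖ ≤ 1 → ‖w‖ ≤ 1 → fB ψ τ (0 + 1) (b - 1) y w ≠ 0)
    {u y w : ℂ} (hu : ‖u‖ ≤ 1) (hy : ‖y‖ ≤ 1) (hw : ‖w‖ ≤ 1) :
    ‖fA1 ψ τ 0 b u y w‖ < ‖fA ψ τ 0 b u y w‖ := by
  by_contra hcon
  have heq : ‖fA1 ψ τ 0 b u y w‖ = ‖fA ψ τ 0 b u y w‖ :=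
    le_antisymm (H1 u y w hu hy hw) (not_lt.mp hcon)
  have hu1 : ‖u‖ = 1 := by
    rcases hu.lt_or_eq with h | h
    · exact absurd (crit_lt hψ hτ hb h0 H1 H2 h hy hw) hcon
    · exact h
  have hψτ : Continuous (fun θ => ψ θ * τ θ) := hψ.mul hτ
  obtain ⟨w1, hw1, heq2⟩ : ∃ w1 : ℂ, ‖w1‖ = 1 ∧ ‖fA1 ψ τ 0 b u y w1‖ = ‖fA ψ τ 0 b u y w1‖ := by
    rcases hw.lt_or_eq with h | h
    · refine ⟨1, by simp, ?_⟩
      apply norm_eq_of_interior (f := fun v => fA1 ψ τ 0 b u y v)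
        (g := fun v => fA ψ τ 0 b u y v) _ _ _ _ h heq
      · intro v hv
        simp only [fA1_eq]
        obtain ⟨D, hD, _⟩ := hasDerivAt_fA_w hψτ hτ hb h0 0 b hu hy hv
        exact hD.differentiableAt
      · intro v hv
        obtain ⟨D, hD, _⟩ := hasDerivAt_fA_w hψ hτ hb h0 0 b hu hy hv
        exact hD.differentiableAt
      · intro v hv
        exact crit_A_ne hψ hτ hb h0 H1 H2 hu hy hv
      · intro v hv
        exact H1 u y v hu hy hv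
    · exact ⟨w, h, heq⟩
  have hB := crit_B_ne hψ hτ hb h0 H1 H2 hy hw1.le
  have hsub := fA_sub hψ hτ hb h0 0 b hu hy hw1.le
  have ht : (fA ψ τ 0 b u y w1 / fB ψ τ 0 b y w1).re = 1 / 2 := by
    apply re_eq_half
    have h2 : fA ψ τ 0 b u y w1 / fB ψ τ 0 b y w1 - 1
        = u * fA1 ψ τ 0 b u y w1 / fB ψ τ 0 b y w1 := by
      field_simp
      linear_combination hsub
    rw [h2, norm_div, norm_div, norm_mul, hu1, one_mul, heq2]
  rcases hβ.lt_or_eq with hβ1 | hβ1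
  · by_cases huw : w1 = u
    · subst huw
      exact no_w_one hψ hτ hb h0 H1 H2 hy hw1.le heq2
    · obtain ⟨hC1, hC2⟩ := touch_w hψ hτ hb h0 H1 H2 hβ1 hbb hu1 hy hw1 ht
      have hX := fX_mul hψ hτ hb h0 0 b hw1.le hu1.le hy hw1.le
      have hx : (w1 - u) * (fX ψ τ 0 b 0 w1 u y w1 / fB ψ τ 0 b y w1)
          = w1 * (fA ψ τ 0 b w1 y w1 / fB ψ τ 0 b y w1)
            - u * (fA ψ τ 0 b u y w1 / fB ψ τ 0 b y w1) := by
        field_simp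
        linear_combination hX
      rcases circle_algebra hw1 hu1 huw ht hx hC1 with h | h
      · have := circle_algebra_pos huw ht hx h
        linarith
      · -- `(w; y, w)` is again a touching point
        apply no_w_one hψ hτ hb h0 H1 H2 hy hw1.le
        have hsub2 := fA_sub hψ hτ hb h0 0 b hw1.le hy hw1.le
        have h2 : fA ψ τ 0 b w1 y w1 / fB ψ τ 0 b y w1 - 1
            = w1 * fA1 ψ τ 0 b w1 y w1 / fB ψ τ 0 b y w1 := by
          field_simp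
          linear_combination hsub2
        have h3 := norm_sub_one_of_re h
        rw [h2, norm_div, norm_div, norm_mul, hw1, one_mul] at h3
        have hBn : ‖fB ψ τ 0 b y w1‖ ≠ 0 := norm_ne_zero_iff.mpr hB
        field_simp at h3
        exact h3
  · -- `β = 1`
    have hb0 : b = 0 := by rw [hbb, ← hβ1]; simp
    subst hb0
    rw [fA_b0 u y w1 u, fA1_b0 u y w1 u] at heq2
    exact no_w_one hψ hτ hb h0 H1 H2 hy hu heq2

/-- Main inequality for `α = 1`. -/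
theorem strict_of_ne_one {β : ℝ} (hβ : 1 ≤ β) (hbb : b = 1 - (β : ℂ))
    (H : ∀ y w : ℂ, ‖y‖ ≤ 1 → ‖w‖ ≤ 1 → fB ψ τ (0 + 1) (b - 1) y w ≠ 0)
    {u y w : ℂ} (hu : ‖u‖ ≤ 1) (hy : ‖y‖ ≤ 1) (hw : ‖w‖ ≤ 1) :
    ‖fA1 ψ τ 0 b u y w‖ < ‖fA ψ τ 0 b u y w‖ := by
  by_contra hcon
  set G : ℝ × ℂ × ℂ × ℂ → ℝ := fun p =>
    ‖fA ψ (fun θ => (p.1 : ℂ) * τ θ) 0 b p.2.1 p.2.2.1 p.2.2.2‖
      - ‖fA1 ψ (fun θ => (p.1 : ℂ) * τ θ) 0 b p.2.1 p.2.2.1 p.2.2.2‖ with hG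
  have hGc : ContinuousOn G PS :=
    (continuousOn_fA_scaled hψ hτ hb h0 0 b).norm.sub
      (continuousOn_fA1_scaled hψ hτ hb h0 0 b).norm
  set Z : Set (ℝ × ℂ × ℂ × ℂ) := PS ∩ G ⁻¹' Iic 0 with hZ
  have hZc : IsCompact Z := by
    apply isCompact_PS.of_isClosed_subset
      (hGc.preimage_isClosed_of_isClosed isCompact_PS.isClosed isClosed_Iic)
    exact inter_subset_left
  have hZn : Z.Nonempty := by
    refine ⟨(1, u, y, w), ⟨⟨by simp, by simpa using hu, by simpa using hy, by simpa using hw⟩, ?_⟩⟩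
    simp only [mem_preimage, mem_Iic, hG]
    simp only [Complex.ofReal_one, one_mul]
    linarith [not_lt.mp hcon]
  obtain ⟨p, hpZ, hpmin⟩ := hZc.exists_isMinOn hZn (f := fun p => p.1) continuous_fst.continuousOn
  obtain ⟨⟨hp1, hp2, hp3, hp4⟩, hpG⟩ := hpZ
  obtain ⟨s, us, ys, ws⟩ := p
  simp only [mem_closedBall, dist_zero_right] at hp2 hp3 hp4
  simp only at hp1
  have hscaled : ∀ θ, ‖(s : ℂ) * τ θ‖ ≤ τ0 := by
    intro θ
    rw [norm_mul, Complex.norm_real, Real.norm_eq_abs, abs_of_nonneg hp1.1]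
    calc s * ‖τ θ‖ ≤ 1 * ‖τ θ‖ := by gcongr; exact hp1.2
      _ ≤ τ0 := by rw [one_mul]; exact hb θ
  simp only [mem_preimage, mem_Iic] at hpG
  rcases hp1.1.eq_or_lt with hs0 | hs0
  · -- `s = 0`
    rw [← hs0] at hpG
    have h1 : fA1 ψ (fun θ => ((0 : ℝ) : ℂ) * τ θ) 0 b us ys ws = 0 := by
      unfold fA1; simp
    have h2 : fA ψ (fun θ => ((0 : ℝ) : ℂ) * τ θ) 0 b us ys ws
        = fB ψ τ (0 + 1) (b - 1) 0 0 := by
      unfold fA fB; simp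
    have h3 := H 0 0 (by simp) (by simp)
    have h4 : 0 < ‖fB ψ τ (0 + 1) (b - 1) 0 0‖ := norm_pos_iff.mpr h3
    simp only [hG] at hpG
    rw [h1, h2, norm_zero, sub_zero] at hpG
    linarith
  · have hH1 : ∀ u y w : ℂ, ‖u‖ ≤ 1 → ‖y‖ ≤ 1 → ‖w‖ ≤ 1 →
        ‖fA1 ψ (fun θ => (s : ℂ) * τ θ) 0 b u y w‖
          ≤ ‖fA ψ (fun θ => (s : ℂ) * τ θ) 0 b u y w‖ := by
      intro u y w hu hy hw
      have hcw : ContinuousOn (fun r : ℝ => G (r, u, y, w)) (Icc 0 1) := by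
        apply hGc.comp (by fun_prop)
        intro r hr
        exact ⟨hr, by simpa using hu, by simpa using hy, by simpa using hw⟩
      have hpos : ∀ r ∈ Ico (0 : ℝ) s, 0 < G (r, u, y, w) := by
        intro r hr
        by_contra hc
        push Not at hc
        have hmem : (r, u, y, w) ∈ Z :=
          ⟨⟨⟨hr.1, hr.2.le.trans hp1.2⟩, by simpa using hu, by simpa using hy, by simpa using hw⟩, hc⟩
        have := hpmin hmem
        simp only [Set.mem_ofPred_eq] at this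
        linarith [hr.2]
      have hge : 0 ≤ G (s, u, y, w) := by
        have h1 : ContinuousWithinAt (fun r : ℝ => G (r, u, y, w)) (Ico 0 s) s :=
          (hcw s hp1).mono (fun r hr => ⟨hr.1, hr.2.le.trans hp1.2⟩)
        have h2 : s ∈ closure (Ico (0 : ℝ) s) := by
          rw [closure_Ico hs0.ne]
          exact ⟨hs0.le, le_rfl⟩
        have := h1.mem_closure_image h2
        have h3 : closure ((fun r : ℝ => G (r, u, y, w)) '' Ico 0 s) ⊆ Ici 0 := by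
          apply closure_minimal _ isClosed_Ici
          rintro _ ⟨r, hr, rfl⟩
          exact (hpos r hr).le
        exact h3 this
      simp only [hG] at hge
      linarith
    have hH2 : ∀ y w : ℂ, ‖y‖ ≤ 1 → ‖w‖ ≤ 1 →
        fB ψ (fun θ => (s : ℂ) * τ θ) (0 + 1) (b - 1) y w ≠ 0 := by
      intro y w hy hw
      have h1 : fB ψ (fun θ => (s : ℂ) * τ θ) (0 + 1) (b - 1) y w
          = fB ψ τ (0 + 1) (b - 1) (s * y) (s * w) := by
        unfold fB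
        apply intervalIntegral.integral_congr
        intro θ _
        simp only
        rw [show y * ((s : ℂ) * τ θ) = (s : ℂ) * y * τ θ by ring,
          show w * ((s : ℂ) * τ θ) = (s : ℂ) * w * τ θ by ring]
      rw [h1]
      apply H
      · rw [norm_mul, Complex.norm_real, Real.norm_eq_abs, abs_of_nonneg hp1.1]
        nlinarith [hp1.1, hp1.2, norm_nonneg y]
      · rw [norm_mul, Complex.norm_real, Real.norm_eq_abs, abs_of_nonneg hp1.1]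
        nlinarith [hp1.1, hp1.2, norm_nonneg w]
    have hfin := critical_one (τ := fun θ => (s : ℂ) * τ θ) hψ (continuous_const.mul hτ) hscaled h0
      hβ hbb hH1 hH2 hp2 hp3 hp4
    simp only [hG] at hpG
    linarith

/-- Main inequality for all `α ≥ 1`. -/
theorem strict_ge {α β : ℝ} (hα : 1 ≤ α) (hβ : 1 ≤ β)
    (H : ∀ y w : ℂ, ‖y‖ ≤ 1 → ‖w‖ ≤ 1 → fB ψ τ (α : ℂ) (-(β : ℂ)) y w ≠ 0)
    {u y w : ℂ} (hu : ‖u‖ ≤ 1) (hy : ‖y‖ ≤ 1) (hw : ‖w‖ ≤ 1) :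
    ‖fA1 ψ τ ((α : ℂ) - 1) (1 - (β : ℂ)) u y w‖ < ‖fA ψ τ ((α : ℂ) - 1) (1 - (β : ℂ)) u y w‖ := by
  have e2 : (1 - (β : ℂ)) - 1 = -(β : ℂ) := by ring
  rcases hα.lt_or_eq with h | h
  · apply strict_of_ne hψ hτ hb h0 h hβ rfl rfl _ hu hy hw
    have e1 : ((α : ℂ) - 1) + 1 = α := by ring
    rw [e1, e2]
    exact H
  · subst h
    have e1 : (((1 : ℝ) : ℂ) - 1) = 0 := by simp
    rw [e1]
    apply strict_of_ne_one hψ hτ hb h0 hβ rfl _ hu hy hw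
    rw [zero_add, e2]
    simpa using H

end Pool.Agent.H73.Had
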