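import Pool.Agent.H73.HadMain

/-!
Several factors with values in half planes.
-/

set_option autoImplicit false

open Complex Metric Set MeasureTheory
open scoped ComplexConjugate

namespace Pool.Agent.H73.Had

open Pool.Agent.H26.HC

/-- One factor with values in a half plane lowers both exponents by one. -/
lemma H_step {ψ τ : ℝ → ℂ} {τ0 : ℝ} (hψ : Continuous ψ) (hτ : Continuous τ)
    (hb : ∀ θ, ‖τ θ‖ ≤ τ0) (h0 : τ0 < 1) {α β : ℝ} (hα : 1 ≤ α) (hβ : 1 ≤ β)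
    (hF : ∀ y w : ℂ, ‖y‖ ≤ 1 → ‖w‖ ≤ 1 → fB ψ τ (α : ℂ) (-(β : ℂ)) y w ≠ 0)
    {G : ℂ → ℂ} (hG : DiffContOnCl ℂ G (ball 0 1))
    (hGc : Continuous (fun η : ℝ => G (circleMap 0 1 η)))
    {c : ℂ} (hc : ∀ η : ℝ, 0 < (c * G (circleMap 0 1 η)).re)
    {y w : ℂ} (hy : ‖y‖ ≤ 1) (hw : ‖w‖ ≤ 1) :
    fB (fun θ => ψ θ * G (τ θ)) τ (((α - 1 : ℝ)) : ℂ) (-((β - 1 : ℝ) : ℂ)) y w ≠ 0 := by
  have hstrict : ∀ u : ℂ, ‖u‖ ≤ 1 → ‖fA1 ψ τ ((α : ℂ) - 1) (1 - (β : ℂ)) u y w‖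
      < ‖fA ψ τ ((α : ℂ) - 1) (1 - (β : ℂ)) u y w‖ := by
    intro u hu
    exact strict_ge hψ hτ hb h0 hα hβ hF hu hy hw
  have hBne : fB ψ τ ((α : ℂ) - 1) (1 - (β : ℂ)) y w ≠ 0 := by
    have h1 := fA_sub hψ hτ hb h0 ((α : ℂ) - 1) (1 - (β : ℂ)) (u := 0) (by simp) hy hw
    rw [zero_mul, sub_zero] at h1
    rw [← h1, ← norm_ne_zero_iff]
    exact ((norm_nonneg _).trans_lt (hstrict 0 (by simp))).ne'
  set k : ℝ → ℂ := fun θ => ψ θ * (1 - y * τ θ) ^ ((α : ℂ) - 1) * (1 - w * τ θ) ^ (1 - (β : ℂ))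
    with hk
  have hkc : Continuous k := cont_k hψ hτ hb h0 _ _ hy hw
  have hcB : cB k = fB ψ τ ((α : ℂ) - 1) (1 - (β : ℂ)) y w := rfl
  have hcA : ∀ u, cA k τ u = fA ψ τ ((α : ℂ) - 1) (1 - (β : ℂ)) u y w := fun u => rfl
  have hpos : ∀ η, 0 < dens k τ η := by
    intro η
    unfold dens
    rw [hcB, hcA]
    set u : ℂ := conj (circleMap 0 1 η) with hu
    have hu1 : ‖u‖ = 1 := by rw [hu, RCLike.norm_conj]; simp
    have h1 : 1 / 2 < (fA ψ τ ((α : ℂ) - 1) (1 - (β : ℂ)) u y w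
        / fB ψ τ ((α : ℂ) - 1) (1 - (β : ℂ)) y w).re := by
      apply re_gt_half
      have h2 := fA_sub hψ hτ hb h0 ((α : ℂ) - 1) (1 - (β : ℂ)) hu1.le hy hw
      have h3 : fA ψ τ ((α : ℂ) - 1) (1 - (β : ℂ)) u y w
          / fB ψ τ ((α : ℂ) - 1) (1 - (β : ℂ)) y w - 1
          = u * fA1 ψ τ ((α : ℂ) - 1) (1 - (β : ℂ)) u y w
            / fB ψ τ ((α : ℂ) - 1) (1 - (β : ℂ)) y w := by
        field_simp
        linear_combination h2
      rw [h3, norm_div, norm_div, norm_mul, hu1, one_mul]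
      exact div_lt_div_of_pos_right (hstrict u hu1.le) (norm_pos_iff.mpr hBne)
    linarith
  have hconv : Convex ℝ {v : ℂ | 0 < (c * v).re} := by
    intro v hv v' hv' a b ha hb' hab
    simp only [Set.mem_ofPred_eq] at hv hv' ⊢
    have e : (c * (a • v + b • v')).re = a * (c * v).re + b * (c * v').re := by
      simp only [Complex.mul_re, Complex.add_re, Complex.add_im, Complex.real_smul,
        Complex.mul_im, Complex.ofReal_re, Complex.ofReal_im]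
      ring
    rw [e]
    rcases ha.lt_or_eq with h | h
    · have h2 := mul_pos h hv
      have h3 := mul_nonneg hb' hv'.le
      linarith
    · have hb1 : b = 1 := by linarith
      rw [← h, hb1]
      linarith
  have hopen : IsOpen {v : ℂ | 0 < (c * v).re} :=
    isOpen_lt continuous_const (Complex.continuous_re.comp (continuous_const.mul continuous_id))
  have hmem := mem_of_open_convex hkc hτ hb h0 (by rw [hcB]; exact hBne) hpos hG hGc hconv hopen hc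
  intro hzero
  have hval : (∫ θ in (0 : ℝ)..(2 * Real.pi), k θ * G (τ θ)) = 0 := by
    rw [← hzero]
    unfold fB
    apply intervalIntegral.integral_congr
    intro θ _
    have e1 : ((α - 1 : ℝ) : ℂ) = (α : ℂ) - 1 := by push_cast; ring
    have e2 : (-((β - 1 : ℝ) : ℂ)) = 1 - (β : ℂ) := by push_cast; ring
    simp only [hk, e1, e2]
    ring
  rw [hval, zero_div] at hmem
  simp at hmem

/-- Several factors. -/
lemma H_prod {τ : ℝ → ℂ} {τ0 : ℝ} (hτ : Continuous τ) (hb : ∀ θ, ‖τ θ‖ ≤ τ0) (h0 : τ0 < 1)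
    {γ δ : ℝ} (hγ : 0 ≤ γ) (hδ : 0 ≤ δ) (G : ℕ → ℂ → ℂ) (n : ℕ) :
    ∀ ψ : ℝ → ℂ, Continuous ψ →
    (∀ j < n, DiffContOnCl ℂ (G j) (ball 0 1)) →
    (∀ j < n, Continuous (fun η : ℝ => G j (circleMap 0 1 η))) →
    (∀ j < n, Continuous (fun θ : ℝ => G j (τ θ))) →
    (∀ j < n, ∃ c : ℂ, ∀ η : ℝ, 0 < (c * G j (circleMap 0 1 η)).re) →
    (∀ y w : ℂ, ‖y‖ ≤ 1 → ‖w‖ ≤ 1 →
      fB ψ τ ((γ + n : ℝ) : ℂ) (-((δ + n : ℝ) : ℂ)) y w ≠ 0) →
    ∀ y w : ℂ, ‖y‖ ≤ 1 → ‖w‖ ≤ 1 →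
      fB (fun θ => ψ θ * ∏ j ∈ Finset.range n, G j (τ θ)) τ (γ : ℂ) (-(δ : ℂ)) y w ≠ 0 := by
  induction n with
  | zero =>
    intro ψ hψ _ _ _ _ hF y w hy hw
    simpa using hF y w hy hw
  | succ n ih =>
    intro ψ hψ hG hGc hGτ hc hF y w hy hw
    obtain ⟨c, hcc⟩ := hc n (Nat.lt_succ_self n)
    have hn0 : (0 : ℝ) ≤ n := Nat.cast_nonneg n
    have h1 : ∀ y w : ℂ, ‖y‖ ≤ 1 → ‖w‖ ≤ 1 →
        fB (fun θ => ψ θ * G n (τ θ)) τ ((γ + n : ℝ) : ℂ) (-((δ + n : ℝ) : ℂ)) y w ≠ 0 := by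
      intro y w hy hw
      have h2 := H_step hψ hτ hb h0 (α := γ + (n + 1 : ℕ)) (β := δ + (n + 1 : ℕ))
        (by push_cast; linarith) (by push_cast; linarith) hF (hG n (Nat.lt_succ_self n))
        (hGc n (Nat.lt_succ_self n)) hcc hy hw
      have e1 : (γ + (n + 1 : ℕ) - 1 : ℝ) = γ + n := by push_cast; ring
      have e2 : (δ + (n + 1 : ℕ) - 1 : ℝ) = δ + n := by push_cast; ring
      rw [e1, e2] at h2
      exact h2
    have h3 := ih (fun θ => ψ θ * G n (τ θ)) (hψ.mul (hGτ n (Nat.lt_succ_self n)))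
      (fun j hj => hG j (hj.trans (Nat.lt_succ_self n)))
      (fun j hj => hGc j (hj.trans (Nat.lt_succ_self n)))
      (fun j hj => hGτ j (hj.trans (Nat.lt_succ_self n)))
      (fun j hj => hc j (hj.trans (Nat.lt_succ_self n))) h1 y w hy hw
    have h4 : (fun θ => ψ θ * ∏ j ∈ Finset.range (n + 1), G j (τ θ))
        = fun θ => ψ θ * G n (τ θ) * ∏ j ∈ Finset.range n, G j (τ θ) := by
      funext θ
      rw [Finset.prod_range_succ]
      ring
    rw [h4]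
    exact h3

/-- Hadamard products with `n` half plane factors. -/
theorem prod_ne {α β : ℝ} (hα : 1 ≤ α) (hβ : 1 ≤ β) {φ : ℂ → ℂ}
    (hφ : DifferentiableOn ℂ φ (ball (0 : ℂ) 1))
    (hN : ∀ x : ℂ, ‖x‖ = 1 → ∀ z : ℂ, ‖z‖ < 1 → hd φ (kr (α : ℂ) (-(β : ℂ)) x) z ≠ 0)
    (n : ℕ) {γ δ : ℝ} (hγ : 0 ≤ γ) (hγn : γ + n ≤ α) (hδ : 0 ≤ δ) (hδn : δ + n ≤ β)
    (g : ℕ → ℂ → ℂ) (hg : ∀ j < n, DifferentiableOn ℂ (g j) (ball (0 : ℂ) 1))
    (hc : ∀ j < n, ∃ c : ℂ, ∀ s : ℂ, ‖s‖ < 1 → 0 < (c * g j s).re)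
    {x0 : ℂ} (hx0 : ‖x0‖ ≤ 1) {z0 : ℂ} (hz0 : ‖z0‖ < 1) :
    hd φ (fun s => kr (γ : ℂ) (-(δ : ℂ)) x0 s * ∏ j ∈ Finset.range n, g j s) z0 ≠ 0 := by
  have hn0 : (0 : ℝ) ≤ n := Nat.cast_nonneg n
  -- lower the exponents
  have hN1 : ∀ x : ℂ, ‖x‖ = 1 → ∀ z : ℂ, ‖z‖ < 1 →
      hd φ (kr ((γ + n : ℝ) : ℂ) (-((δ + n : ℝ) : ℂ)) x) z ≠ 0 := by
    obtain ⟨m, hm⟩ := exists_nat_ge (α + β)
    intro x hx z hz
    refine all_smaller (γ + n) (δ + n) (by linarith) (by linarith) hφ m α β hα hβ hγn hδn ?_ ?_ hN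
      x hx.le z hz
    · have := le_max_right (γ + n) 1
      linarith
    · have := le_max_right (δ + n) 1
      linarith
  obtain ⟨r, hr1, hr2⟩ := exists_between hz0
  obtain ⟨R, hR1, hR2⟩ := exists_between hr2
  have hr0 : 0 < r := (norm_nonneg z0).trans_lt hr1
  have hR0 : 0 < R := hr0.trans hR1
  have hcirc : ∀ θ : ℝ, circleMap 0 R θ ∈ ball (0 : ℂ) 1 := by
    intro θ
    simp [abs_of_pos hR0, hR2]
  set ψ : ℝ → ℂ := fun θ => φ (circleMap 0 R θ) with hψdef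
  set τ : ℝ → ℂ := fun θ => (r : ℂ) * (circleMap 0 R θ)⁻¹ with hτdef
  have hψ : Continuous ψ := hφ.continuousOn.comp_continuous (continuous_circleMap 0 R) hcirc
  have hτ : Continuous τ :=
    continuous_const.mul ((continuous_circleMap 0 R).inv₀ (fun θ => circleMap_ne_center hR0.ne'))
  have hb : ∀ θ, ‖τ θ‖ ≤ r / R := by
    intro θ
    rw [hτdef]
    simp only [norm_mul, norm_inv, norm_circleMap_zero, Complex.norm_real, Real.norm_eq_abs,
      abs_of_pos hR0, abs_of_pos hr0]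
    rw [div_eq_mul_inv]
  have h0 : r / R < 1 := by rw [div_lt_one hR0]; exact hR1
  have hH : ∀ (c d x w : ℂ) (f : ℂ → ℂ), ‖x‖ ≤ 1 → ‖w‖ ≤ 1 → DifferentiableOn ℂ f (ball 0 1) →
      (2 * Real.pi) * hd φ (fun v => kr c d x v * f v) (r * w)
        = ∫ θ in (0 : ℝ)..(2 * Real.pi),
          (ψ θ * (1 - -(x * w) * τ θ) ^ c * (1 - w * τ θ) ^ d) * f (w * τ θ) := by
    intro c d x w f hx hw hf
    have hfd : DifferentiableOn ℂ (fun v => kr c d x v * f v) (ball 0 1) :=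
      (kr_diff hx c d).mul hf
    have hrw : ‖(r : ℂ) * w‖ < R := by
      rw [norm_mul, Complex.norm_real, Real.norm_eq_abs, abs_of_pos hr0]
      nlinarith [norm_nonneg w]
    have h1 := hadamard_eq hφ hfd hR0 hR2 hrw
    refine h1.trans ?_
    apply intervalIntegral.integral_congr
    intro θ _
    simp only [hψdef, hτdef, kr]
    rw [show (1 : ℂ) + x * (r * w * (circleMap 0 R θ)⁻¹)
        = 1 - -(x * w) * (r * (circleMap 0 R θ)⁻¹) by ring,
      show (1 : ℂ) - r * w * (circleMap 0 R θ)⁻¹ = 1 - w * (r * (circleMap 0 R θ)⁻¹) by ring,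
      show (r : ℂ) * w * (circleMap 0 R θ)⁻¹ = w * (r * (circleMap 0 R θ)⁻¹) by ring]
    ring
  have hH1 : ∀ (c d x w : ℂ), ‖x‖ ≤ 1 → ‖w‖ ≤ 1 →
      (2 * Real.pi) * hd φ (kr c d x) (r * w) = fB ψ τ c d (-(x * w)) w := by
    intro c d x w hx hw
    have h1 := hH c d x w (fun _ => 1) hx hw (differentiableOn_const _)
    simp only [mul_one] at h1
    exact h1
  have h2pi : (2 * Real.pi : ℂ) ≠ 0 := by
    have := Real.pi_ne_zero
    exact_mod_cast mul_ne_zero two_ne_zero this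
  -- nonvanishing on the closed bidisc
  have hF : ∀ y w : ℂ, ‖y‖ ≤ 1 → ‖w‖ ≤ 1 →
      fB ψ τ ((γ + n : ℝ) : ℂ) (-((δ + n : ℝ) : ℂ)) y w ≠ 0 := by
    apply bidisc_ne
    · have h1 := continuousOn_fA_scaled hψ hτ hb h0 ((γ + n : ℝ) : ℂ) (-((δ + n : ℝ) : ℂ))
      have h2 : ContinuousOn (fun p : ℂ × ℂ => fA ψ (fun θ => ((1 : ℝ) : ℂ) * τ θ)
          ((γ + n : ℝ) : ℂ) (-((δ + n : ℝ) : ℂ))
          0 p.1 p.2) (closedBall 0 1 ×ˢ closedBall 0 1) := by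
        apply h1.comp (f := fun p : ℂ × ℂ => ((1 : ℝ), (0 : ℂ), p.1, p.2)) (by fun_prop)
        intro p hp
        exact ⟨by simp, by simp, hp.1, hp.2⟩
      refine h2.congr ?_
      intro p _
      unfold fA fB
      simp
    · intro y w hy hw
      obtain ⟨D, hD, _⟩ := hasDerivAt_fB_y hψ hτ hb h0 ((γ + n : ℝ) : ℂ) (-((δ + n : ℝ) : ℂ)) hy hw
      exact hD.differentiableAt
    · intro y w hy hw
      obtain ⟨D, hD, _⟩ := hasDerivAt_fB_w hψ hτ hb h0 ((γ + n : ℝ) : ℂ) (-((δ + n : ℝ) : ℂ)) hy hw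
      exact hD.differentiableAt
    · intro y w hy hyw
      have hw : ‖w‖ ≤ 1 := hyw ▸ hy
      obtain ⟨x, hx, hxy⟩ : ∃ x : ℂ, ‖x‖ = 1 ∧ y = -(x * w) := by
        by_cases hw0 : w = 0
        · refine ⟨1, by simp, ?_⟩
          rw [hw0, norm_zero, norm_eq_zero] at hyw
          rw [hyw, hw0]; simp
        · refine ⟨-(y / w), ?_, by field_simp⟩
          rw [norm_neg, norm_div, hyw, div_self (norm_ne_zero_iff.mpr hw0)]
      rw [hxy, ← hH1 ((γ + n : ℝ) : ℂ) (-((δ + n : ℝ) : ℂ)) x w hx.le hw]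
      apply mul_ne_zero h2pi
      apply hN1 x hx
      rw [norm_mul, Complex.norm_real, Real.norm_eq_abs, abs_of_pos hr0]
      nlinarith [norm_nonneg w]
  -- the point
  set w : ℂ := z0 / r with hw
  have hrC : (r : ℂ) ≠ 0 := by exact_mod_cast hr0.ne'
  have hwn : ‖w‖ < 1 := by
    rw [hw, norm_div, Complex.norm_real, Real.norm_eq_abs, abs_of_pos hr0]
    rw [div_lt_one hr0]
    exact hr1
  have hz : z0 = r * w := by rw [hw]; field_simp
  have hyn : ‖-(x0 * w)‖ ≤ 1 := by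
    rw [norm_neg, norm_mul]
    calc ‖x0‖ * ‖w‖ ≤ 1 * ‖w‖ := by gcongr
      _ ≤ 1 := by linarith
  have hmem : ∀ t : ℂ, ‖t‖ ≤ 1 → w * t ∈ ball (0 : ℂ) 1 := by
    intro t ht
    rw [mem_ball, dist_zero_right, norm_mul]
    calc ‖w‖ * ‖t‖ ≤ ‖w‖ * 1 := by gcongr
      _ < 1 := by linarith
  have hτ1 : ∀ θ, ‖τ θ‖ ≤ 1 := fun θ => (hb θ).trans h0.le
  have hfin := H_prod hτ hb h0 hγ hδ (fun j t => g j (w * t)) n ψ hψ
    (by
      intro j hj
      apply DifferentiableOn.diffContOnCl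
      rw [closure_ball _ one_ne_zero]
      intro t ht
      have ht1 : ‖t‖ ≤ 1 := by simpa using ht
      apply DifferentiableAt.differentiableWithinAt
      have h1 : DifferentiableAt ℂ (g j) (w * t) :=
        (hg j hj _ (hmem t ht1)).differentiableAt (isOpen_ball.mem_nhds (hmem t ht1))
      exact h1.comp t (by fun_prop))
    (by
      intro j hj
      apply (hg j hj).continuousOn.comp_continuous
      · exact continuous_const.mul (continuous_circleMap 0 1)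
      · intro η
        exact hmem _ (by simp))
    (by
      intro j hj
      apply (hg j hj).continuousOn.comp_continuous
      · exact continuous_const.mul hτ
      · intro θ
        exact hmem _ (hτ1 θ))
    (by
      intro j hj
      obtain ⟨c, hcj⟩ := hc j hj
      refine ⟨c, fun η => hcj _ ?_⟩
      have := hmem (circleMap 0 1 η) (by simp)
      simpa using this)
    hF (-(x0 * w)) w hyn hwn.le
  have hpd : DifferentiableOn ℂ (fun s => ∏ j ∈ Finset.range n, g j s) (ball (0 : ℂ) 1) := by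
    apply DifferentiableOn.fun_finsetProd
    intro j hj
    exact hg j (Finset.mem_range.mp hj)
  intro hzero
  apply hfin
  have h1 := hH (γ : ℂ) (-(δ : ℂ)) x0 w (fun s => ∏ j ∈ Finset.range n, g j s) hx0 hwn.le hpd
  rw [← hz, hzero, mul_zero] at h1
  rw [h1]
  unfold fB
  apply intervalIntegral.integral_congr
  intro θ _
  simp only
  ring

end Pool.Agent.H73.Had
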